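import Pool.Agent.Helper16.AZ.Stmts

/-! Pointwise orthogonality. -/

set_option autoImplicit false

open Finset Filter MeasureTheory Topology
open scoped ComplexConjugate InnerProductSpace

namespace Pool.Agent.Helper16.AZ

open Pool.Agent.Helper16.MD (MS PB Am RW Rich)
open UnitAddTorus (mFourier)

theorem pin_add {r : ℕ} (X : Fin r → ℤ) (θ β : T r) :
    mFourier X (θ + β) = mFourier X θ * mFourier X β := by
  show ∏ i, fourier (X i) ((θ + β) i) = (∏ i, fourier (X i) (θ i)) * ∏ i, fourier (X i) (β i)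
  rw [← Finset.prod_mul_distrib]
  refine Finset.prod_congr rfl fun i _ => ?_
  rw [Pi.add_apply, fourier_apply, fourier_apply, fourier_apply, smul_add, AddCircle.toCircle_add,
    Circle.coe_mul]

theorem pin_norm {r : ℕ} (X : Fin r → ℤ) (θ : T r) : ‖mFourier X θ‖ = 1 := by
  show ‖∏ i, fourier (X i) (θ i)‖ = 1
  rw [norm_prod]
  refine Finset.prod_eq_one fun i _ => ?_
  rw [fourier_apply]
  exact Circle.norm_coe _

theorem pin_mem {r d : ℕ} (X : Fin r → ℤ) (f : LL r d) :
    MemLp (fun θ => mFourier X θ • (f : T r → E d) θ) 2 (mm r) := by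
  refine (Lp.memLp f).of_le ?_ ?_
  · exact ((mFourier X).continuous.aestronglyMeasurable).smul (Lp.aestronglyMeasurable f)
  · refine ae_of_all _ fun θ => ?_
    rw [norm_smul, pin_norm, one_mul]

/-- multiplication by a character -/
noncomputable def pin_mul {r d : ℕ} (X : Fin r → ℤ) (f : LL r d) : LL r d :=
  (pin_mem X f).toLp _

theorem pin_mul_ae {r d : ℕ} (X : Fin r → ℤ) (f : LL r d) :
    ∀ᵐ θ ∂(mm r), (pin_mul X f : T r → E d) θ = mFourier X θ • (f : T r → E d) θ :=
  (pin_mem X f).coeFn_toLp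

theorem pin_eig {r d : ℕ} {β : T r} {φ : T r → Op d} {W : LL r d →L[ℂ] LL r d}
    (hA : Act β φ W) (X : Fin r → ℤ) {f : LL r d} (hf : Eig W f) : Eig W (pin_mul X f) := by
  obtain ⟨z, hz, hWf⟩ := hf
  refine ⟨mFourier X β * z, ?_, ?_⟩
  · rw [norm_mul, pin_norm, hz, one_mul]
  · refine Lp.ext ?_
    have h1 := hA (pin_mul X f)
    have h2 := hA f
    have hq : Measure.QuasiMeasurePreserving (fun θ : T r => θ + β) (mm r) (mm r) :=
      (measurePreserving_add_right (mm r) β).quasiMeasurePreserving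
    have h3 : ∀ᵐ θ ∂(mm r), (pin_mul X f : T r → E d) (θ + β) =
        mFourier X (θ + β) • (f : T r → E d) (θ + β) := hq.ae (pin_mul_ae X f)
    have h4 := pin_mul_ae X f
    have h5 := Lp.coeFn_smul (mFourier X β * z) (pin_mul X f)
    have h6 := Lp.coeFn_smul z f
    rw [hWf] at h2
    filter_upwards [h1, h2, h3, h4, h5, h6] with θ a1 a2 a3 a4 a5 a6
    rw [a1, a3, a5, Pi.smul_apply, a4, pin_add, map_smul, ← a2, a6, Pi.smul_apply, smul_smul,
      smul_smul]
    congr 1
    ring

theorem pin_inner {r d : ℕ} (X : Fin r → ℤ) (f g : LL r d) :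
    (inner ℂ f (pin_mul X g) : ℂ) = inner ℂ (pin_mul (-X) f) g := by
  rw [L2.inner_def, L2.inner_def]
  refine integral_congr_ae ?_
  filter_upwards [pin_mul_ae X g, pin_mul_ae (-X) f] with θ h1 h2
  rw [h1, h2, inner_smul_right, inner_smul_left, UnitAddTorus.mFourier_neg]
  simp

theorem pin_int {r d : ℕ} (X : Fin r → ℤ) (f g : LL r d) :
    ∫ θ, mFourier X θ * (inner ℂ ((f : T r → E d) θ) ((g : T r → E d) θ) : ℂ) ∂(mm r) =
      inner ℂ f (pin_mul X g) := by
  rw [L2.inner_def]
  refine integral_congr_ae ?_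
  filter_upwards [pin_mul_ae X g] with θ h1
  rw [h1, inner_smul_right]

theorem st_PIN (hL : ST_L1Z) : ST_PIN := by
  intro r d β φ W _ hA f hf g hg
  refine hL r (fun θ => (inner ℂ ((f : T r → E d) θ) ((g : T r → E d) θ) : ℂ))
    (L2.integrable_inner f g) (fun X => ?_)
  rw [pin_int]
  have key : pin_mul X g ∈ (PP W)ᗮ := by
    unfold PP
    rw [Submodule.orthogonal_closure, Submodule.mem_orthogonal]
    intro u hu
    induction hu using Submodule.span_induction with
    | mem u hu =>
      rw [pin_inner]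
      have h1 : pin_mul (-X) u ∈ PP W :=
        Submodule.le_topologicalClosure _ (Submodule.subset_span (pin_eig hA (-X) hu))
      exact (Submodule.mem_orthogonal _ _).1 hg _ h1
    | zero => exact inner_zero_left _
    | add u v _ _ h1 h2 => rw [inner_add_left, h1, h2, add_zero]
    | smul c u _ h1 => rw [inner_smul_left, h1, mul_zero]
  exact (Submodule.mem_orthogonal _ _).1 key f hf

end Pool.Agent.Helper16.AZ
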